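import Pool.Agent.Lib.MP_21db80_an.G.GFinal

namespace Pool.Agent.Results.MP_21db80_an.FourPoints

open Pool.Agent.Lib.MP_21db80_an

/-- Let `f` be a quadratic rational map, `A` an invariant set of four points that misses a critical
point, and let `B` contain `A` and the critical values. Then every set `T` between the deformation
space (the points of `AD` on curves with one component) and the augmented deformation space `AD`
has infinitely many connected components. The question Q1 is the case where `A` is a critical
cycle of period four, `B` is `A` with the other critical value and `T = AD f A B`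
(`Gen.per4_hyp` checks the hypotheses in that case). -/
theorem result : ∀ (f : Sph → Sph) (A B : Set Sph), RatDeg f 2 → A.encard = 4 → f '' A = A →
    (∃ c, Crit f c ∧ c ∉ A) → A ⊆ B → (∀ c, Crit f c → f c ∈ B) →
    ∀ T : Set (AT B),
      {τ ∈ AD f A B | ∃ m : {m : Marking B // Stable m}, τ = Quot.mk _ m ∧ m.1.k = 1} ⊆ T →
      T ⊆ AD f A B → ((fun τ => @connectedComponentIn _ (bers B) T τ) '' T).Infinite := by
  rintro f A B h1 h2 h3 ⟨c, h4, h5⟩ h6 h7 T hD hT
  obtain ⟨O, o1, o2, o3, o4⟩ := Gen.four_main h1 h2 h3 h4 h5 h6 h7
  refine @Gen.infinite_components _ (bers B) O o1 o2 T (hT.trans o3) fun n => ?_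
  obtain ⟨τ, a1, a2⟩ := o4 n
  exact ⟨τ, hD ⟨a1.2, a2⟩, a1.1⟩

end Pool.Agent.Results.MP_21db80_an.FourPoints
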