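import Pool.Agent.Lib.MP_21db80_an.H39Between

namespace Pool.Agent.Results.MP_21db80_an.Q2

open Pool.Agent.Lib.MP_21db80_an

/-- Some pair as in the setting has a disconnected augmented deformation space, and every set `T`
between the deformation space (the points of `AD` on curves with one component) and `AD` is
disconnected as well. The case `T = AD f A B` is the question. -/
theorem result : ∃ (f : Sph → Sph) (A B : Set Sph), A.Finite ∧ B.Finite ∧ 3 ≤ A.encard ∧ A ⊆ B ∧
    RatDeg f 2 ∧ Set.MapsTo f A B ∧ (∀ x, Crit f x → f x ∈ B) ∧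
      ∀ T : Set (AT B),
        {τ ∈ AD f A B | ∃ m : {m : Marking B // Stable m}, τ = Quot.mk _ m ∧ m.1.k = 1} ⊆ T →
        T ⊆ AD f A B → ¬ @IsPreconnected _ (bers B) T := by
  obtain ⟨f, c, c', h, hc⟩ := exists_per4
  have h4 := h.2.2.2.2.1
  have hp : c ∈ Function.periodicPts f := Function.minimalPeriod_pos_iff_mem_periodicPts.1
    (by rw [h4]; norm_num)
  have hi := Function.iterate_injOn_Iio_minimalPeriod (f := f) (x := c)
  rw [h4] at hi
  have hA : (Set.range fun i : ℕ => f^[i] c).Finite :=
    ((Set.finite_Iio 4).image fun i : ℕ => f^[i] c).subset (by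
      rintro _ ⟨i, rfl⟩
      exact ⟨i % 4, Nat.mod_lt _ (by norm_num), by
        simp only; rw [← h4, Function.iterate_mod_minimalPeriod_eq]⟩)
  refine ⟨f, _, _, hA, hA.insert _, ?_, Set.subset_insert _ _, h.1, ?_, fun x hx => ?_,
    per4_mainD h (Set.subset_insert _ _) (Set.mem_insert _ _)⟩
  · refine le_trans ?_ (Set.encard_le_encard (Set.image_subset_range _ (Set.Iio 4)))
    rw [hi.encard_image, ← Finset.coe_Iio, Set.encard_coe_eq_coe_finsetCard, Nat.card_Iio]
    norm_num
  · rintro _ ⟨i, rfl⟩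
    exact Or.inr ⟨i + 1, Function.iterate_succ_apply' _ _ _⟩
  · rcases hc x hx with rfl | rfl
    · exact Or.inr ⟨1, rfl⟩
    · exact Or.inl rfl

end Pool.Agent.Results.MP_21db80_an.Q2
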